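import Pool.Agent.helper84.NR.Spec

set_option autoImplicit false

namespace Pool.Agent.helper84.NR

open scoped Classical
open Finset

theorem SUQ (hEDG : EDG_stmt) : SUQ_stmt := by
  intro V F _ _ M x y hb
  obtain ⟨h1, -⟩ := hEDG V F M
  have hdis : ∀ B ∈ YF M y, ∀ B' ∈ YF M y, B ≠ B' → Disjoint (QQ M x B) (QQ M x B') := by
    intro B hB B' hB' hne
    rw [Finset.disjoint_left]
    intro s hs hs'
    rw [YF, Finset.mem_filter] at hB hB'
    rw [QQ, Finset.mem_filter] at hs hs'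
    have hsy : s ≠ y := by
      intro e
      rw [e] at hs
      obtain ⟨f, hf⟩ := hs.2.1
      exact hb.ne f ⟨(h1 f x y hf).1, (h1 f x y hf).2.1⟩
    have h2 := (M.poly B B' hne s y hsy hs.2.2 hB.2 hs'.2.2 hB'.2).1
    exact hb.nn s hs.2.1 ⟨B, h2⟩
  have hun : univ.filter (fun v => Adj M.toCyc x v) = (YF M y).biUnion (QQ M x) := by
    ext s
    rw [Finset.mem_biUnion, Finset.mem_filter]
    constructor
    · rintro ⟨-, hs⟩
      obtain ⟨f, hf1, hf2⟩ := hb.nb s hs
      refine ⟨f, ?_, ?_⟩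
      · rw [YF, Finset.mem_filter]
        exact ⟨Finset.mem_univ _, hf2⟩
      · rw [QQ, Finset.mem_filter]
        exact ⟨Finset.mem_univ _, hs, hf1⟩
    · rintro ⟨B, -, hs⟩
      rw [QQ, Finset.mem_filter] at hs
      exact ⟨Finset.mem_univ _, hs.2.1⟩
  rw [hun, Finset.card_biUnion hdis]

end Pool.Agent.helper84.NR
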